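import Mathlib
import Pool.Agent.H565R2.FO2.Myc

set_option autoImplicit false

/-! Perfect sets of points with different values of a Borel map with uncountable range. -/

namespace Pool.Agent.V8H69.EX

open Set TopologicalSpace Topology

theorem perf_cont {T : Type*} [TopologicalSpace T] [PolishSpace T] (H : T → (ℕ → Bool))
    (hH : Continuous H) (hunc : ¬ (range H).Countable) :
    ∃ φ : (ℕ → Bool) → T, Continuous φ ∧ Function.Injective (H ∘ φ) := by
  classical
  let 𝒰 : Set (Set T) := {U | IsOpen U ∧ (H '' U).Countable}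
  obtain ⟨𝒱, h𝒱c, h𝒱s, h𝒱e⟩ := isOpen_sUnion_countable 𝒰 (fun U hU => hU.1)
  let O : Set T := ⋃₀ 𝒰
  have hO : IsOpen O := isOpen_sUnion (fun U hU => hU.1)
  have hOc : (H '' O).Countable := by
    show (H '' ⋃₀ 𝒰).Countable
    rw [← h𝒱e, image_sUnion]
    refine Countable.sUnion (h𝒱c.image _) ?_
    rintro _ ⟨U, hU, rfl⟩
    exact (h𝒱s hU).2
  let K : Set T := Oᶜ
  have hK : IsClosed K := hO.isClosed_compl
  have key : ∀ U : Set T, IsOpen U → (U ∩ K).Nonempty → ¬ (H '' (U ∩ K)).Countable := by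
    intro U hU ⟨t, ht, htK⟩ hc
    apply htK
    refine ⟨U, ⟨hU, ?_⟩, ht⟩
    refine (hc.union hOc).mono ?_
    rintro _ ⟨x, hx, rfl⟩
    by_cases h : x ∈ O
    · exact Or.inr ⟨x, h, rfl⟩
    · exact Or.inl ⟨x, ⟨hx, h⟩, rfl⟩
  have hKne : K.Nonempty := by
    by_contra hne
    rw [not_nonempty_iff_eq_empty] at hne
    apply hunc
    refine hOc.mono ?_
    rintro _ ⟨x, rfl⟩
    refine ⟨x, ?_, rfl⟩
    by_contra h
    have : x ∈ K := h
    rw [hne] at this
    exact this
  have : PolishSpace K := hK.polishSpace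
  have : Nonempty K := hKne.to_subtype
  let W : Set (K × K) := {p | H p.1.1 ≠ H p.2.1}
  have hWo : IsOpen W := by
    have h1 : Continuous fun p : K × K => H p.1.1 :=
      hH.comp (continuous_subtype_val.comp continuous_fst)
    have h2 : Continuous fun p : K × K => H p.2.1 :=
      hH.comp (continuous_subtype_val.comp continuous_snd)
    exact isOpen_ne_fun h1 h2
  have hWd : Dense W := by
    intro p
    rw [mem_closure_iff]
    intro A hA hpA
    obtain ⟨a, b⟩ := p
    obtain ⟨A1, B1, hA1, hB1, ha, hb, hAB⟩ := isOpen_prod_iff.1 hA a b hpA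
    obtain ⟨U, hU, rfl⟩ := isOpen_induced_iff.1 hA1
    by_contra hcon
    apply key U hU ⟨a.1, ha, a.2⟩
    refine (countable_singleton (H b.1)).mono ?_
    rintro _ ⟨x, ⟨hxU, hxK⟩, rfl⟩
    by_contra hx
    apply hcon
    exact ⟨(⟨x, hxK⟩, b), hAB ⟨hxU, hb⟩, hx⟩
  obtain ⟨h, hc, hh⟩ := Pool.Agent.H565R2.FO2.mycielski' (fun _ : ℕ => W) (fun _ => hWo)
    (fun _ => hWd)
  refine ⟨fun b => (h b).1, continuous_subtype_val.comp hc, ?_⟩
  intro b b' hbb
  by_contra hne
  exact hh b b' hne 0 hbb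

theorem perf_borel {T : Type*} [mT : MeasurableSpace T] [hT : StandardBorelSpace T]
    (H : T → (ℕ → Bool)) (hH : Measurable H) (hunc : ¬ (range H).Countable) :
    ∃ φ : (ℕ → Bool) → T, Measurable φ ∧ Function.Injective (H ∘ φ) := by
  obtain ⟨τ, hb, hp⟩ := hT.polish
  obtain ⟨t', ht', hc, hP⟩ := hH.exists_continuous
  have hb2 : @borel T t' = @borel T τ :=
    MeasureTheory.borel_eq_borel_of_le (t := t') (t' := τ) hP hp ht'
  have h2 : mT = @borel T t' := by
    rw [hb2]
    exact @BorelSpace.measurable_eq T τ mT hb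
  obtain ⟨φ, hφ, hinj⟩ := @perf_cont T t' hP H hc hunc
  refine ⟨φ, ?_, hinj⟩
  have hB' : @BorelSpace T t' mT := @BorelSpace.mk T t' mT h2
  exact @Continuous.measurable (ℕ → Bool) T _ _ _ t' mT hB' φ hφ

theorem exists_not_measurableSet : ∃ S : Set (ℕ → Bool), ¬ MeasurableSet S := by
  by_contra hcon
  push Not at hcon
  have h1 : Cardinal.mk {S : Set (ℕ → Bool) // MeasurableSet S} ≤ Cardinal.continuum := by
    obtain ⟨b, hb, hgen⟩ := (inferInstance :
      MeasurableSpace.CountablyGenerated (ℕ → Bool)).isCountablyGenerated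
    have := MeasurableSpace.cardinal_measurableSet_le_continuum (s := b)
      ((Cardinal.le_aleph0_iff_set_countable.2 hb).trans Cardinal.aleph0_le_continuum)
    rw [← hgen] at this
    exact this
  have h2 : Cardinal.mk (Set (ℕ → Bool)) ≤ Cardinal.mk {S : Set (ℕ → Bool) // MeasurableSet S} :=
    Cardinal.mk_le_of_injective (f := fun S => (⟨S, hcon S⟩ : {S : Set (ℕ → Bool) //
      MeasurableSet S})) (fun S T h => congrArg Subtype.val h)
  have h3 : Cardinal.mk (Set (ℕ → Bool)) = 2 ^ Cardinal.continuum := by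
    rw [Cardinal.mk_set]
    congr 1
    simp
  have h4 := Cardinal.cantor Cardinal.continuum
  rw [h3] at h2
  exact absurd (h2.trans h1) (not_le.2 h4)

end Pool.Agent.V8H69.EX
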