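import Mathlib

set_option autoImplicit false

/-! Compact convex sets with a Lindelöf set of extreme points: metrizable quotients whose extreme
points are the images of the extreme points. -/

namespace Pool.Agent.V8H69.EX

open Set TopologicalSpace Topology

variable {V : Type*} [AddCommGroup V] [Module ℝ V] [TopologicalSpace V] [IsTopologicalAddGroup V]
  [ContinuousSMul ℝ V] [T2Space V] [LocallyConvexSpace ℝ V]

/-- The map `V → ℝ^D` given by the functionals in `D`. -/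
def ev (D : Set (V →L[ℝ] ℝ)) : V →L[ℝ] (D → ℝ) := ContinuousLinearMap.pi fun φ => φ.1

omit [IsTopologicalAddGroup V] [ContinuousSMul ℝ V] [T2Space V] [LocallyConvexSpace ℝ V] in
theorem ev_apply (D : Set (V →L[ℝ] ℝ)) (x : V) (φ : D) : ev D x φ = φ.1 x := rfl

omit [IsTopologicalAddGroup V] [ContinuousSMul ℝ V] [T2Space V] [LocallyConvexSpace ℝ V] in
theorem ev_eq_iff (D : Set (V →L[ℝ] ℝ)) (x y : V) : ev D x = ev D y ↔ ∀ φ ∈ D, φ x = φ y := by
  constructor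
  · intro h φ hφ
    exact congrFun h ⟨φ, hφ⟩
  · intro h
    funext φ
    exact h φ.1 φ.2

/-- Functionals separate a point from a compact set. -/
theorem sep_point {K : Set V} (hK : IsCompact K) {e : V} (he : e ∉ K) :
    ∃ F : Set (V →L[ℝ] ℝ), F.Finite ∧ ∀ k ∈ K, ∃ φ ∈ F, φ e ≠ φ k := by
  classical
  have hcov : K ⊆ ⋃ φ : V →L[ℝ] ℝ, {x | φ x ≠ φ e} := by
    intro k hk
    have hne : e ≠ k := fun h => he (h ▸ hk)
    obtain ⟨φ, hφ⟩ := geometric_hahn_banach_point_point hne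
    exact mem_iUnion.2 ⟨φ, hφ.ne'⟩
  obtain ⟨t, ht⟩ := hK.elim_finite_subcover (fun φ : V →L[ℝ] ℝ => {x | φ x ≠ φ e})
    (fun φ => isOpen_ne_fun φ.continuous continuous_const) hcov
  refine ⟨t, t.finite_toSet, fun k hk => ?_⟩
  obtain ⟨φ, hφ, hk2⟩ := mem_iUnion₂.1 (ht hk)
  exact ⟨φ, hφ, fun h => hk2 h.symm⟩

omit [IsTopologicalAddGroup V] [ContinuousSMul ℝ V] [T2Space V] [LocallyConvexSpace ℝ V] in
theorem isOpen_sep {K : Set V} (hK : IsCompact K) (F : Set (V →L[ℝ] ℝ)) :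
    IsOpen {x : V | ∀ k ∈ K, ∃ φ ∈ F, φ x ≠ φ k} := by
  have h1 : {x : V | ∀ k ∈ K, ∃ φ ∈ F, φ x ≠ φ k} = (ev F) ⁻¹' (ev F '' K)ᶜ := by
    ext x
    simp only [mem_ofPred_eq, mem_preimage, mem_compl_iff, mem_image, not_exists, not_and]
    constructor
    · intro h k hk he
      obtain ⟨φ, hφ, hne⟩ := h k hk
      exact hne (((ev_eq_iff F k x).1 he φ hφ).symm)
    · intro h k hk
      have := h k hk
      rw [ev_eq_iff] at this
      push Not at this
      obtain ⟨φ, hφ, hne⟩ := this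
      exact ⟨φ, hφ, fun h => hne h.symm⟩
  rw [h1]
  exact ((hK.image (ev F).continuous).isClosed.isOpen_compl).preimage (ev F).continuous

/-- Countably many functionals separate a Lindelöf set from a compact set. -/
theorem sep_lindelof {E K : Set V} (hE : IsLindelof E) (hK : IsCompact K) (hd : Disjoint E K) :
    ∃ D : Set (V →L[ℝ] ℝ), D.Countable ∧ ∀ e ∈ E, ∀ k ∈ K, ∃ φ ∈ D, φ e ≠ φ k := by
  classical
  have h1 : ∀ e : V, ∃ F : Set (V →L[ℝ] ℝ), F.Finite ∧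
      (e ∈ E → ∀ k ∈ K, ∃ φ ∈ F, φ e ≠ φ k) := by
    intro e
    by_cases he : e ∈ E
    · obtain ⟨F, hF, h⟩ := sep_point hK (fun hk => (disjoint_left.1 hd) he hk)
      exact ⟨F, hF, fun _ => h⟩
    · exact ⟨∅, finite_empty, fun h => absurd h he⟩
  choose F hF hFs using h1
  obtain ⟨t, htc, -, ht⟩ := hE.elim_nhds_subcover
    (fun e => {x : V | ∀ k ∈ K, ∃ φ ∈ F e, φ x ≠ φ k})
    (fun e he => (isOpen_sep hK (F e)).mem_nhds (hFs e he))
  refine ⟨⋃ e ∈ t, F e, htc.biUnion (fun e _ => (hF e).countable), ?_⟩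
  intro e he k hk
  obtain ⟨e', he', hx⟩ := mem_iUnion₂.1 (ht he)
  obtain ⟨φ, hφ, hne⟩ := hx k hk
  exact ⟨φ, mem_iUnion₂.2 ⟨e', he', hφ⟩, hne⟩

/-- Midpoints of pairs of points of `X` at distance at least `1 / (n + 1)` for `φ`. -/
def Kset (X : Set V) (φ : V →L[ℝ] ℝ) (n : ℕ) : Set V :=
  (fun p : V × V => (1 / 2 : ℝ) • (p.1 + p.2)) ''
    ((X ×ˢ X) ∩ {p | (1 : ℝ) / (n + 1) ≤ |φ p.1 - φ p.2|})

omit [T2Space V] [LocallyConvexSpace ℝ V] in
theorem isCompact_Kset {X : Set V} (hX : IsCompact X) (φ : V →L[ℝ] ℝ) (n : ℕ) :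
    IsCompact (Kset X φ n) := by
  have hc : IsClosed {p : V × V | (1 : ℝ) / (n + 1) ≤ |φ p.1 - φ p.2|} := by
    refine isClosed_le continuous_const ?_
    fun_prop
  refine ((hX.prod hX).inter_right hc).image ?_
  fun_prop

omit [IsTopologicalAddGroup V] [ContinuousSMul ℝ V] [T2Space V] [LocallyConvexSpace ℝ V] in
theorem disjoint_Kset (X : Set V) (φ : V →L[ℝ] ℝ) (n : ℕ) :
    Disjoint (X.extremePoints ℝ) (Kset X φ n) := by
  rw [disjoint_left]
  rintro e he ⟨⟨x, y⟩, ⟨⟨hx, hy⟩, hd⟩, rfl⟩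
  simp only [mem_ofPred_eq] at hx hy hd he
  rw [mem_extremePoints] at he
  have hseg : (1 / 2 : ℝ) • (x + y) ∈ openSegment ℝ x y :=
    ⟨1 / 2, 1 / 2, by norm_num, by norm_num, by norm_num, by rw [smul_add]⟩
  obtain ⟨h1, h2⟩ := he.2 x hx y hy hseg
  have h3 : x = y := h1.trans h2.symm
  rw [h3, sub_self, abs_zero] at hd
  have : (0 : ℝ) < 1 / (n + 1) := by positivity
  linarith

/-- `D` sees that the extreme points of `X` are extreme. -/
def Good (X : Set V) (D : Set (V →L[ℝ] ℝ)) : Prop :=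
  ∀ e ∈ X.extremePoints ℝ, ∀ φ ∈ D, ∀ n : ℕ, ∀ k ∈ Kset X φ n, ∃ ψ ∈ D, ψ e ≠ ψ k

theorem exists_good {X : Set V} (hX : IsCompact X) (hE : IsLindelof (X.extremePoints ℝ))
    (D₀ : Set (V →L[ℝ] ℝ)) (hD₀ : D₀.Countable) :
    ∃ D : Set (V →L[ℝ] ℝ), D.Countable ∧ D₀ ⊆ D ∧ Good X D := by
  choose N hNc hN using fun (φ : V →L[ℝ] ℝ) (n : ℕ) =>
    sep_lindelof hE (isCompact_Kset hX φ n) (disjoint_Kset X φ n)
  let S : ℕ → Set (V →L[ℝ] ℝ) := fun k => Nat.rec D₀ (fun _ D => D ∪ ⋃ φ ∈ D, ⋃ n, N φ n) k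
  have hS : ∀ k, (S k).Countable := by
    intro k
    induction k with
    | zero => exact hD₀
    | succ k ih =>
      exact ih.union (ih.biUnion fun φ _ => countable_iUnion fun n => hNc φ n)
  refine ⟨⋃ k, S k, countable_iUnion hS, subset_iUnion S 0, ?_⟩
  intro e he φ hφ n k hk
  obtain ⟨j, hj⟩ := mem_iUnion.1 hφ
  obtain ⟨ψ, hψ, hne⟩ := hN φ n e he k hk
  refine ⟨ψ, mem_iUnion.2 ⟨j + 1, ?_⟩, hne⟩
  exact Or.inr (mem_iUnion₂.2 ⟨φ, hj, mem_iUnion.2 ⟨n, hψ⟩⟩)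

omit [IsTopologicalAddGroup V] [ContinuousSMul ℝ V] [T2Space V] [LocallyConvexSpace ℝ V] in
theorem mem_ext_of_not_mem {X : Set V} (hconv : Convex ℝ X) {D : Set (V →L[ℝ] ℝ)} {x : V}
    (hx : x ∈ X) (hnot : ev D x ∉ ⋃ φ ∈ D, ⋃ n : ℕ, ev D '' (Kset X φ n)) :
    ev D x ∈ (ev D '' X).extremePoints ℝ := by
  have key : ∀ y ∈ X, ∀ z ∈ X, (1 / 2 : ℝ) • (ev D y + ev D z) = ev D x → ev D y = ev D z := by
    intro y hy z hz hyz
    rw [ev_eq_iff]
    intro φ hφ
    by_contra hne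
    have hpos : 0 < |φ y - φ z| := abs_pos.2 (sub_ne_zero.2 hne)
    obtain ⟨n, hn⟩ := exists_nat_one_div_lt hpos
    apply hnot
    refine mem_iUnion₂.2 ⟨φ, hφ, mem_iUnion.2 ⟨n, (1 / 2 : ℝ) • (y + z), ?_, ?_⟩⟩
    · exact ⟨(y, z), ⟨⟨hy, hz⟩, hn.le⟩, rfl⟩
    · rw [map_smul, map_add]
      exact hyz
  rw [mem_extremePoints]
  refine ⟨⟨x, hx, rfl⟩, ?_⟩
  rintro _ ⟨y, hy, rfl⟩ _ ⟨z, hz, rfl⟩ ⟨a, b, ha, hb, hab, habx⟩
  have heq : ev D y = ev D z := by
    by_contra hne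
    obtain ⟨c, hc0, hca, hcb⟩ : ∃ c : ℝ, 0 < c ∧ c ≤ a ∧ c ≤ b :=
      ⟨min a b, lt_min ha hb, min_le_left _ _, min_le_right _ _⟩
    have hy' : (a + c) • y + (b - c) • z ∈ X :=
      hconv hy hz (by linarith) (by linarith) (by linarith)
    have hz' : (a - c) • y + (b + c) • z ∈ X :=
      hconv hy hz (by linarith) (by linarith) (by linarith)
    have h1 := key _ hy' _ hz' (by
      rw [← habx]
      simp only [map_add, map_smul]
      module)
    apply hne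
    have h2 : (2 * c) • (ev D y - ev D z) = 0 := by
      have h3 : (2 * c) • (ev D y - ev D z) =
          ev D ((a + c) • y + (b - c) • z) - ev D ((a - c) • y + (b + c) • z) := by
        simp only [map_add, map_smul]
        module
      rw [h3, h1, sub_self]
    rcases smul_eq_zero.1 h2 with h | h
    · exfalso
      linarith
    · exact sub_eq_zero.1 h
  rw [← heq] at habx
  have h5 : ev D x = ev D y := by
    rw [← habx, ← add_smul, hab, one_smul]
  exact ⟨h5.symm, by rw [← heq]; exact h5.symm⟩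

omit [IsTopologicalAddGroup V] [ContinuousSMul ℝ V] [T2Space V] [LocallyConvexSpace ℝ V] in
theorem not_mem_of_good {X : Set V} {D : Set (V →L[ℝ] ℝ)} (hD : Good X D) {e : V}
    (he : e ∈ X.extremePoints ℝ) : ev D e ∉ ⋃ φ ∈ D, ⋃ n : ℕ, ev D '' (Kset X φ n) := by
  intro h
  obtain ⟨φ, hφ, h⟩ := mem_iUnion₂.1 h
  obtain ⟨n, k, hk, hke⟩ := mem_iUnion.1 h
  obtain ⟨ψ, hψ, hne⟩ := hD e he φ hφ n k hk
  exact hne (((ev_eq_iff D k e).1 hke ψ hψ).symm)

/-- The image of the set of extreme points is the set of extreme points of the image. -/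
theorem image_extremePoints_eq {X : Set V} (hX : IsCompact X) (hconv : Convex ℝ X)
    {D : Set (V →L[ℝ] ℝ)} (hD : Good X D) :
    ev D '' (X.extremePoints ℝ) = (ev D '' X).extremePoints ℝ := by
  apply Subset.antisymm
  · rintro _ ⟨e, he, rfl⟩
    exact mem_ext_of_not_mem hconv he.1 (not_mem_of_good hD he)
  · intro t ht
    exact surjOn_extremePoints_image (ev D).toContinuousAffineMap hX ht

theorem ev_image_extremePoints {X : Set V} (hX : IsCompact X) (hconv : Convex ℝ X)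
    {D : Set (V →L[ℝ] ℝ)} (hD : Good X D) :
    ev D '' (X.extremePoints ℝ) = (ev D '' X) \ ⋃ φ ∈ D, ⋃ n : ℕ, ev D '' (Kset X φ n) := by
  ext t
  constructor
  · rintro ⟨e, he, rfl⟩
    exact ⟨⟨e, he.1, rfl⟩, not_mem_of_good hD he⟩
  · rintro ⟨⟨x, hx, rfl⟩, hnot⟩
    rw [image_extremePoints_eq hX hconv hD]
    exact mem_ext_of_not_mem hconv hx hnot

theorem measurableSet_image {X : Set V} (hX : IsCompact X) (hconv : Convex ℝ X)
    {D : Set (V →L[ℝ] ℝ)} (hDc : D.Countable) (hD : Good X D) :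
    MeasurableSet (ev D '' (X.extremePoints ℝ)) := by
  have : Countable D := hDc.to_subtype
  rw [ev_image_extremePoints hX hconv hD]
  refine ((hX.image (ev D).continuous).measurableSet).diff ?_
  refine MeasurableSet.biUnion hDc fun φ _ => MeasurableSet.iUnion fun n => ?_
  exact ((isCompact_Kset hX φ n).image (ev D).continuous).measurableSet

end Pool.Agent.V8H69.EX
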