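import Mathlib
import Pool.Agent.V8H69.EX.Perf
import Pool.Agent.V8H69.EX.Quot

set_option autoImplicit false

/-! Baire sets of a Lindelöf set of extreme points, and the main argument. -/

namespace Pool.Agent.V8H69.EX

open Set TopologicalSpace Topology MeasureTheory

/-- The members of the Baire σ-algebra: the σ-algebra generated by the zero sets of continuous real
functions. -/
def IsBaireSet {T : Type*} [TopologicalSpace T] (B : Set T) : Prop :=
  MeasurableSet[MeasurableSpace.generateFrom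
    {Z : Set T | ∃ g : T → ℝ, Continuous g ∧ Z = g ⁻¹' {0}}] B

variable {V : Type*} [AddCommGroup V] [Module ℝ V] [TopologicalSpace V] [IsTopologicalAddGroup V]
  [ContinuousSMul ℝ V] [T2Space V] [LocallyConvexSpace ℝ V]

/-- `B` is given by a measurable condition on the values of countably many functionals. -/
def Rep {E : Set V} (B : Set E) : Prop :=
  ∃ D₀ : Set (V →L[ℝ] ℝ), D₀.Countable ∧ ∀ D : Set (V →L[ℝ] ℝ), D₀ ⊆ D →
    ∃ C : Set (D → ℝ), MeasurableSet C ∧ ∀ e : E, e ∈ B ↔ ev D e.1 ∈ C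

omit [IsTopologicalAddGroup V] [ContinuousSMul ℝ V] [T2Space V] [LocallyConvexSpace ℝ V] in
theorem Rep.compl {E : Set V} {B : Set E} (h : Rep B) : Rep Bᶜ := by
  obtain ⟨D₀, hc, h⟩ := h
  refine ⟨D₀, hc, fun D hD => ?_⟩
  obtain ⟨C, hC, hB⟩ := h D hD
  exact ⟨Cᶜ, hC.compl, fun e => not_congr (hB e)⟩

omit [IsTopologicalAddGroup V] [ContinuousSMul ℝ V] [T2Space V] [LocallyConvexSpace ℝ V] in
theorem Rep.iUnion {E : Set V} {B : ℕ → Set E} (h : ∀ n, Rep (B n)) : Rep (⋃ n, B n) := by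
  choose D₀ hc h using h
  refine ⟨⋃ n, D₀ n, countable_iUnion hc, fun D hD => ?_⟩
  choose C hC hB using fun n => h n D ((subset_iUnion D₀ n).trans hD)
  refine ⟨⋃ n, C n, MeasurableSet.iUnion hC, fun e => ?_⟩
  simp only [mem_iUnion]
  exact exists_congr fun n => hB n e

omit [IsTopologicalAddGroup V] [ContinuousSMul ℝ V] [T2Space V] [LocallyConvexSpace ℝ V] in
theorem Rep.biUnion {ι : Type*} {E : Set V} {t : Set ι} (ht : t.Countable) {B : ι → Set E}
    (h : ∀ i ∈ t, Rep (B i)) : Rep (⋃ i ∈ t, B i) := by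
  choose! D₀ hc h using h
  refine ⟨⋃ i ∈ t, D₀ i, ht.biUnion hc, fun D hD => ?_⟩
  have h' : ∀ i ∈ t, ∃ C : Set (D → ℝ), MeasurableSet C ∧ ∀ e : E, e ∈ B i ↔ ev D e.1 ∈ C :=
    fun i hi => h i hi D ((subset_biUnion_of_mem hi).trans hD)
  choose! C hC hB using h'
  refine ⟨⋃ i ∈ t, C i, MeasurableSet.biUnion ht hC, fun e => ?_⟩
  simp only [mem_iUnion]
  exact exists_congr fun i => exists_congr fun hi => hB i hi e

omit [IsTopologicalAddGroup V] [ContinuousSMul ℝ V] [T2Space V] [LocallyConvexSpace ℝ V] in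
/-- The complement of a compact set, seen by finitely many functionals. -/
theorem rep_sep {E : Set V} {K : Set V} (hK : IsCompact K) {F : Set (V →L[ℝ] ℝ)}
    (hF : F.Countable) :
    Rep {e : E | ∀ k ∈ K, ∃ φ ∈ F, φ e.1 ≠ φ k} := by
  refine ⟨F, hF, fun D hD => ?_⟩
  have : Countable F := hF.to_subtype
  let π : (D → ℝ) → (F → ℝ) := fun t φ => t ⟨φ.1, hD φ.2⟩
  have hπ : Measurable π := by
    refine measurable_pi_lambda _ fun φ => measurable_pi_apply _
  refine ⟨π ⁻¹' (ev F '' K)ᶜ, hπ ((hK.image (ev F).continuous).measurableSet.compl), ?_⟩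
  intro e
  have h2 : π (ev D e.1) = ev F e.1 := rfl
  simp only [mem_ofPred_eq, mem_preimage, mem_compl_iff, h2, mem_image, not_exists, not_and]
  constructor
  · intro h k hk he
    obtain ⟨φ, hφ, hne⟩ := h k hk
    exact hne (((ev_eq_iff F k e.1).1 he φ hφ).symm)
  · intro h k hk
    have := h k hk
    rw [ev_eq_iff] at this
    push Not at this
    obtain ⟨φ, hφ, hne⟩ := this
    exact ⟨φ, hφ, fun h => hne h.symm⟩

/-- Between a closed and an open set of the Lindelöf set of extreme points, there is a set that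
is given by countably many functionals. -/
theorem exists_between {X : Set V} (hX : IsCompact X) {E : Set V} (hEX : E ⊆ X)
    (hE : IsLindelof E) {A U : Set E} (hA : IsClosed A) (hU : IsOpen U) (hAU : A ⊆ U) :
    ∃ B : Set E, Rep B ∧ A ⊆ B ∧ B ⊆ U := by
  classical
  obtain ⟨W, hW, rfl⟩ := isOpen_induced_iff.1 hU
  let K : Set V := X \ W
  have hK : IsCompact K := hX.diff hW
  have : LindelofSpace E := isLindelof_iff_lindelofSpace.1 hE
  have hAl : IsLindelof A := hA.isLindelof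
  have h1 : ∀ e : E, ∃ F : Set (V →L[ℝ] ℝ), F.Finite ∧
      (e ∈ A → ∀ k ∈ K, ∃ φ ∈ F, φ e.1 ≠ φ k) := by
    intro e
    by_cases he : e ∈ A
    · obtain ⟨F, hF, h⟩ := sep_point hK (e := e.1) (fun hk => hk.2 (hAU he))
      exact ⟨F, hF, fun _ => h⟩
    · exact ⟨∅, finite_empty, fun h => absurd h he⟩
  choose F hF hFs using h1
  obtain ⟨t, htc, -, ht⟩ := hAl.elim_nhds_subcover
    (fun e => {x : E | ∀ k ∈ K, ∃ φ ∈ F e, φ x.1 ≠ φ k})
    (fun e he => ((isOpen_sep hK (F e)).preimage continuous_subtype_val).mem_nhds (hFs e he))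
  refine ⟨⋃ e ∈ t, {x : E | ∀ k ∈ K, ∃ φ ∈ F e, φ x.1 ≠ φ k},
    Rep.biUnion htc (fun e _ => rep_sep hK (hF e).countable), ht, ?_⟩
  intro x hx
  obtain ⟨e, he, hxe⟩ := mem_iUnion₂.1 hx
  by_contra hxW
  obtain ⟨φ, -, hne⟩ := hxe x.1 ⟨hEX x.2, hxW⟩
  exact hne rfl

/-- Baire sets are given by countably many functionals. -/
theorem rep_baire {X : Set V} (hX : IsCompact X) {E : Set V} (hEX : E ⊆ X)
    (hE : IsLindelof E) {B : Set E} (hB : IsBaireSet B) : Rep B := by
  induction B, hB using MeasurableSpace.generateFrom_induction with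
  | hC Z hZ _ =>
    obtain ⟨g, hg, rfl⟩ := hZ
    rw [← compl_compl (g ⁻¹' {0})]
    apply Rep.compl
    have h1 : ∀ n : ℕ, ∃ B : Set E, Rep B ∧ {x : E | (1 : ℝ) / (n + 1) ≤ |g x|} ⊆ B ∧
        B ⊆ (g ⁻¹' {0})ᶜ := by
      intro n
      refine exists_between hX hEX hE (isClosed_le continuous_const hg.abs)
        (isClosed_singleton.preimage hg).isOpen_compl ?_
      intro x hx hx0
      have h0 : g x = 0 := hx0
      have h2 : (1 : ℝ) / (n + 1) ≤ |g x| := hx
      rw [h0, abs_zero] at h2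
      have : (0 : ℝ) < 1 / (n + 1) := by positivity
      linarith
    choose B hB hB1 hB2 using h1
    have h3 : (g ⁻¹' {0})ᶜ = ⋃ n, B n := by
      apply Subset.antisymm
      · intro x hx
        have hx0 : g x ≠ 0 := hx
        obtain ⟨n, hn⟩ := exists_nat_one_div_lt (abs_pos.2 hx0)
        exact mem_iUnion.2 ⟨n, hB1 n hn.le⟩
      · exact iUnion_subset hB2
    rw [h3]
    exact Rep.iUnion hB
  | empty => exact ⟨∅, countable_empty, fun D _ => ⟨∅, MeasurableSet.empty, fun e => Iff.rfl⟩⟩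
  | compl s _ ih => exact ih.compl
  | iUnion s _ ih => exact Rep.iUnion ih

/-- A non-separable set contains an uncountable uniformly discrete set. -/
theorem exists_separated {F : Type*} [MetricSpace F] {R : Set F} (hR : ¬ IsSeparable R) :
    ∃ ε : ℝ, 0 < ε ∧ ∃ S ⊆ R, ¬ S.Countable ∧ S.Pairwise (fun x y => ε ≤ dist x y) := by
  by_contra hcon
  push Not at hcon
  have h1 : ∀ n : ℕ, ∃ S ⊆ R, S.Countable ∧ ∀ x ∈ R, ∃ y ∈ S, dist x y < 1 / (n + 1 : ℝ) := by
    intro n
    have hpos : (0 : ℝ) < 1 / (n + 1) := by positivity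
    obtain ⟨S, hS⟩ := zorn_subset
      {S : Set F | S ⊆ R ∧ S.Pairwise (fun x y => (1 : ℝ) / (n + 1) ≤ dist x y)} (by
        intro c hc hchain
        refine ⟨⋃₀ c, ⟨sUnion_subset fun s hs => (hc hs).1, ?_⟩, fun s hs => subset_sUnion_of_mem hs⟩
        exact (pairwise_sUnion hchain.directedOn).2 fun s hs => (hc hs).2)
    refine ⟨S, hS.prop.1, ?_, ?_⟩
    · by_contra hcount
      exact hcon _ hpos S hS.prop.1 hcount hS.prop.2
    · intro x hx
      by_contra hno
      push Not at hno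
      have hins : insert x S ∈ {S : Set F | S ⊆ R ∧
          S.Pairwise (fun x y => (1 : ℝ) / (n + 1) ≤ dist x y)} := by
        refine ⟨insert_subset hx hS.prop.1, ?_⟩
        intro a ha b hb hab
        rcases ha with rfl | ha
        · rcases hb with rfl | hb
          · exact absurd rfl hab
          · exact hno b hb
        · rcases hb with rfl | hb
          · rw [dist_comm]
            exact hno a ha
          · exact hS.prop.2 ha hb hab
      have hmem : x ∈ S := hS.le_of_ge hins (subset_insert x S) (mem_insert x S)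
      have := hno x hmem
      rw [dist_self] at this
      linarith
  choose S hSR hSc hS using h1
  apply hR
  refine ⟨⋃ n, S n, countable_iUnion hSc, ?_⟩
  intro x hx
  rw [Metric.mem_closure_iff]
  intro ε hε
  obtain ⟨n, hn⟩ := exists_nat_one_div_lt hε
  obtain ⟨y, hy, hd⟩ := hS n x hx
  exact ⟨y, mem_iUnion.2 ⟨n, hy⟩, hd.trans hn⟩

universe u in
/-- An uncountable set has an uncountable subset that embeds into the Cantor set. -/
theorem exists_embedding {F : Type u} {S : Set F} (hS : ¬ S.Countable) :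
    ∃ Y ⊆ S, ¬ Y.Countable ∧ Nonempty (Y ↪ (ℕ → Bool)) := by
  have h1 : Cardinal.aleph 1 ≤ Cardinal.mk S := by
    rw [← Cardinal.succ_aleph0]
    exact Order.succ_le_of_lt (not_le.1 fun h => hS (Cardinal.le_aleph0_iff_set_countable.1 h))
  obtain ⟨Y, hYS, hY⟩ := Cardinal.le_mk_iff_exists_subset.1 h1
  refine ⟨Y, hYS, ?_, ?_⟩
  · intro hc
    have := Cardinal.le_aleph0_iff_set_countable.2 hc
    rw [hY] at this
    exact absurd this (not_le.2 Cardinal.aleph0_lt_aleph_one)
  · rw [← Cardinal.lift_mk_le', hY]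
    simpa using Cardinal.aleph_one_le_continuum

theorem separable_range {X : Set V} (hX : IsCompact X) (hconv : Convex ℝ X)
    (hL : IsLindelof (X.extremePoints ℝ)) {F : Type*} [MetricSpace F]
    (f : X.extremePoints ℝ → F) (hf : ∀ U : Set F, IsOpen U → IsBaireSet (f ⁻¹' U)) :
    IsSeparable (range f) := by
  classical
  by_contra hns
  obtain ⟨ε, hε, S, hSR, hSc, hSd⟩ := exists_separated hns
  obtain ⟨Y, hYS, hYc, ⟨q⟩⟩ := exists_embedding hSc
  have huniq : ∀ x : F, ∀ y ∈ Y, ∀ y' ∈ Y, x ∈ Metric.ball y (ε / 2) →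
      x ∈ Metric.ball y' (ε / 2) → y = y' := by
    intro x y hy y' hy' h1 h2
    by_contra hne
    have h3 := hSd (hYS hy) (hYS hy') hne
    have h4 : dist y y' ≤ dist x y + dist x y' := by
      rw [dist_comm x y]
      exact dist_triangle _ _ _
    rw [Metric.mem_ball] at h1 h2
    linarith
  -- the sets `E_A`
  let EA : Set F → Set (X.extremePoints ℝ) := fun A => f ⁻¹' (⋃ y ∈ A, Metric.ball y (ε / 2))
  have hEA : ∀ A, Rep (EA A) := fun A =>
    rep_baire hX extremePoints_subset hL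
      (hf _ (isOpen_biUnion fun y _ => Metric.isOpen_ball))
  have memEA : ∀ (A : Set F) (e : X.extremePoints ℝ),
      e ∈ EA A ↔ ∃ y ∈ A, f e ∈ Metric.ball y (ε / 2) := by
    intro A e
    show f e ∈ (⋃ y ∈ A, Metric.ball y (ε / 2)) ↔ _
    simp only [mem_iUnion, exists_prop]
  let An : ℕ → Set F := fun n => {y | ∃ h : y ∈ Y, q ⟨y, h⟩ n = true}
  choose D₁ hD₁c hD₁ using fun n => hEA (An n)
  obtain ⟨D₂, hD₂c, hD₂⟩ := hEA Y
  obtain ⟨D, hDc, hDsub, hDg⟩ := exists_good hX hL (D₂ ∪ ⋃ n, D₁ n)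
    (hD₂c.union (countable_iUnion hD₁c))
  have : Countable D := hDc.to_subtype
  obtain ⟨Cs, hCs, hCs'⟩ := hD₂ D (subset_union_left.trans hDsub)
  choose Cn hCn hCn' using fun n =>
    hD₁ n D ((subset_iUnion D₁ n).trans (subset_union_right.trans hDsub))
  have hTm : MeasurableSet (ev D '' (X.extremePoints ℝ)) := measurableSet_image hX hconv hDc hDg
  let T0 : Set (D → ℝ) := (ev D '' (X.extremePoints ℝ)) ∩ Cs
  have hT0 : MeasurableSet T0 := hTm.inter hCs
  have hT0s : StandardBorelSpace T0 := hT0.standardBorel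
  have hTs : StandardBorelSpace (ev D '' (X.extremePoints ℝ)) := hTm.standardBorel
  let H : T0 → (ℕ → Bool) := fun t n => decide (t.1 ∈ Cn n)
  have hH : Measurable H := by
    refine measurable_pi_iff.2 fun n => measurable_to_bool ?_
    have : (fun t : T0 => H t n) ⁻¹' {true} = Subtype.val ⁻¹' (Cn n) := by
      ext t
      simp [H]
    rw [this]
    exact measurable_subtype_coe (hCn n)
  have hq : ∀ (e : X.extremePoints ℝ) (y : F) (hy : y ∈ Y), f e ∈ Metric.ball y (ε / 2) →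
      ∀ n, (ev D e.1 ∈ Cn n ↔ q ⟨y, hy⟩ n = true) := by
    intro e y hy hfe n
    rw [← hCn' n e, memEA]
    constructor
    · rintro ⟨y', ⟨hy', hqn⟩, hfe'⟩
      have := huniq (f e) y hy y' hy' hfe hfe'
      subst this
      exact hqn
    · intro h
      exact ⟨y, ⟨hy, h⟩, hfe⟩
  have hHq : ∀ (e : X.extremePoints ℝ) (y : F) (hy : y ∈ Y), f e ∈ Metric.ball y (ε / 2) →
      ∀ t : T0, t.1 = ev D e.1 → H t = q ⟨y, hy⟩ := by
    intro e y hy hfe t ht
    funext n
    have := hq e y hy hfe n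
    rw [← ht] at this
    show decide (t.1 ∈ Cn n) = _
    by_cases h : t.1 ∈ Cn n
    · rw [this.1 h]
      exact decide_eq_true h
    · have h2 : q ⟨y, hy⟩ n = false := Bool.eq_false_iff.2 fun h3 => h (this.2 h3)
      rw [h2]
      exact decide_eq_false h
  have hunc : ¬ (range H).Countable := by
    intro hc
    have h1 : range q ⊆ range H := by
      rintro _ ⟨⟨y, hy⟩, rfl⟩
      obtain ⟨e, he⟩ := hSR (hYS hy)
      have hfe : f e ∈ Metric.ball y (ε / 2) := by
        rw [he]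
        exact Metric.mem_ball_self (by linarith)
      have h2 : ev D e.1 ∈ Cs := (hCs' e).1 ((memEA Y e).2 ⟨y, hy, hfe⟩)
      exact ⟨⟨ev D e.1, ⟨e.1, e.2, rfl⟩, h2⟩, hHq e y hy hfe _ rfl⟩
    have h3 : (range q).Countable := hc.mono h1
    apply hYc
    have h4 : Countable Y := by
      have := h3.to_subtype
      exact (Equiv.ofInjective q q.injective).countable_iff.2 this
    exact h4
  obtain ⟨φ, hφ, hinj⟩ := perf_borel H hH hunc
  obtain ⟨S', hS'⟩ := exists_not_measurableSet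
  apply hS'
  let AS : Set F := {y | ∃ h : y ∈ Y, ∃ s ∈ S', q ⟨y, h⟩ = H (φ s)}
  obtain ⟨D₃, hD₃c, hD₃⟩ := hEA AS
  obtain ⟨D', hD'c, hD'sub, hD'g⟩ := exists_good hX hL (D ∪ D₃) (hDc.union hD₃c)
  have : Countable D' := hD'c.to_subtype
  obtain ⟨C', hC', hC''⟩ := hD₃ D' (subset_union_right.trans hD'sub)
  have hT'm : MeasurableSet (ev D' '' (X.extremePoints ℝ)) :=
    measurableSet_image hX hconv hD'c hD'g
  have hT's : StandardBorelSpace (ev D' '' (X.extremePoints ℝ)) := hT'm.standardBorel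
  have hDD' : D ⊆ D' := subset_union_left.trans hD'sub
  let π : (D' → ℝ) → (D → ℝ) := fun t φ => t ⟨φ.1, hDD' φ.2⟩
  have hπ : Measurable π := measurable_pi_lambda _ fun φ => measurable_pi_apply _
  have hπe : ∀ x : V, π (ev D' x) = ev D x := fun x => rfl
  let p : (ev D' '' (X.extremePoints ℝ)) → (ev D '' (X.extremePoints ℝ)) := fun t =>
    ⟨π t.1, by
      obtain ⟨t, e, he, rfl⟩ := t
      exact ⟨e, he, rfl⟩⟩
  have hp : Measurable p := (hπ.comp measurable_subtype_coe).subtype_mk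
  have hps : Function.Surjective p := by
    rintro ⟨_, e, he, rfl⟩
    exact ⟨⟨ev D' e, e, he, rfl⟩, rfl⟩
  let Q : Set (ev D '' (X.extremePoints ℝ)) := {t | ∃ e : X.extremePoints ℝ, ev D e.1 = t.1 ∧ e ∈ EA AS}
  have hpQ : p ⁻¹' Q = Subtype.val ⁻¹' C' := by
    ext ⟨t, e', he', rfl⟩
    constructor
    · rintro ⟨e, hee, heA⟩
      have hee' : ev D e.1 = ev D e' := hee
      show ev D' e' ∈ C'
      rw [← hC'' ⟨e', he'⟩, memEA]
      obtain ⟨y, ⟨hy, s, hs, hqs⟩, hfe⟩ := (memEA AS e).1 heA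
      have h1 : ev D e.1 ∈ Cs := (hCs' e).1 ((memEA Y e).2 ⟨y, hy, hfe⟩)
      rw [hee'] at h1
      obtain ⟨y', hy', hfe'⟩ := (memEA Y _).1 ((hCs' ⟨e', he'⟩).2 h1)
      have h2 : q ⟨y, hy⟩ = q ⟨y', hy'⟩ := by
        rw [← hHq e y hy hfe ⟨ev D e', ⟨e', he', rfl⟩, h1⟩ hee'.symm,
          ← hHq ⟨e', he'⟩ y' hy' hfe' ⟨ev D e', ⟨e', he', rfl⟩, h1⟩ rfl]
      have h3 := q.injective h2
      rw [Subtype.mk.injEq] at h3
      subst h3
      exact ⟨y, ⟨hy, s, hs, hqs⟩, hfe'⟩
    · intro h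
      have h' : ev D' e' ∈ C' := h
      exact ⟨⟨e', he'⟩, rfl, (hC'' ⟨e', he'⟩).2 h'⟩
  have hQ : MeasurableSet Q := by
    rw [← hp.measurableSet_preimage_iff_of_surjective hps, hpQ]
    exact measurable_subtype_coe hC'
  let j : T0 → (ev D '' (X.extremePoints ℝ)) := fun t => ⟨t.1, t.2.1⟩
  have hj : Measurable j := measurable_subtype_coe.subtype_mk
  have hfin : S' = (fun s => j (φ s)) ⁻¹' Q := by
    ext s
    constructor
    · intro hs
      obtain ⟨⟨e, he, hee⟩, hcs⟩ := (φ s).2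
      have hcs' : ev D e ∈ Cs := by rw [hee]; exact hcs
      obtain ⟨y, hy, hfe⟩ := (memEA Y _).1 ((hCs' ⟨e, he⟩).2 hcs')
      refine ⟨⟨e, he⟩, hee, (memEA AS _).2 ⟨y, ⟨hy, s, hs, ?_⟩, hfe⟩⟩
      exact (hHq ⟨e, he⟩ y hy hfe (φ s) hee.symm).symm
    · rintro ⟨e, hee, heA⟩
      obtain ⟨y, ⟨hy, s', hs', hqs⟩, hfe⟩ := (memEA AS e).1 heA
      have h1 : H (φ s) = q ⟨y, hy⟩ := hHq e y hy hfe (φ s) hee.symm
      rw [hqs] at h1
      have := hinj h1
      rw [this]
      exact hs'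
  rw [hfin]
  exact (hj.comp hφ) hQ

end Pool.Agent.V8H69.EX
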